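import Pool.Agent.Helper28.LV.StN

/-! Project LV, module NX: Hecke relations of the coefficients. -/

set_option autoImplicit false

namespace Pool.Agent.Helper21.LV

open Pool.Agent.Helper28.WK Pool.Agent.Helper28.LV Pool.Agent.Helper14.WK
open Pool.Agent.Helper14.CV (G0)

private noncomputable def tm (c : ℕ → ℂ) (p a s M : ℕ) : ℂ :=
  if p ^ s ∣ M then (p : ℂ) ^ ((a + 1) * s) * c (M / p ^ s) else 0

private theorem sum_tm (c : ℕ → ℂ) (h0 : c 0 = 0) (p a M T : ℕ) (hp : p.Prime) (hT : M + 1 ≤ T) :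
    ∑ s ∈ Finset.range T, tm c p a s M = ∑ s ∈ Finset.range (M + 1), tm c p a s M := by
  symm
  refine Finset.sum_subset (Finset.range_subset_range.2 hT) fun s _ hs => ?_
  have hs' : M < s := by
    by_contra h
    exact hs (Finset.mem_range.2 (by omega))
  unfold tm
  rcases Nat.eq_zero_or_pos M with hM | hM
  · rw [hM, if_pos (dvd_zero _), Nat.zero_div, h0, mul_zero]
  · have h1 : s < p ^ s := Nat.lt_pow_self hp.one_lt
    rw [if_neg (Nat.not_dvd_of_pos_of_lt hM (by omega))]

private theorem tm_rel (c : ℕ → ℂ) (p a s m l : ℕ) (lam e : ℂ) (hp : p.Prime) (hl : l.Prime)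
    (hlp : l ≠ p)
    (h : ∀ m : ℕ, c (l * m) + (if l ∣ m then e * c (m / l) else 0) = lam * c m) :
    tm c p a s (l * m) + (if l ∣ m then e * tm c p a s (m / l) else 0) = lam * tm c p a s m := by
  have hco : Nat.Coprime (p ^ s) l := by
    apply Nat.Coprime.pow_left
    exact (Nat.coprime_primes hp hl).2 (fun h => hlp h.symm)
  have hpos : 0 < p ^ s := pow_pos hp.pos s
  unfold tm
  by_cases hd : p ^ s ∣ m
  · have hd1 : p ^ s ∣ l * m := Dvd.dvd.mul_left hd l
    rw [if_pos hd1, if_pos hd, Nat.mul_div_assoc l hd]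
    have h2 := h (m / p ^ s)
    by_cases hlm : l ∣ m
    · obtain ⟨q, rfl⟩ := hlm
      have hq : p ^ s ∣ q := hco.dvd_of_dvd_mul_left hd
      obtain ⟨r, rfl⟩ := hq
      have e1 : l * (p ^ s * r) / p ^ s = l * r := by
        rw [show l * (p ^ s * r) = p ^ s * (l * r) by ring, Nat.mul_div_cancel_left _ hpos]
      have e2 : l * (p ^ s * r) / l = p ^ s * r := Nat.mul_div_cancel_left _ hl.pos
      have e3 : p ^ s * r / p ^ s = r := Nat.mul_div_cancel_left _ hpos
      have e4 : l * r / l = r := Nat.mul_div_cancel_left _ hl.pos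
      rw [if_pos (Dvd.intro _ rfl), e2, if_pos (Dvd.intro _ rfl), e3, e1]
      rw [e1, if_pos (Dvd.intro _ rfl), e4] at h2
      linear_combination (p : ℂ) ^ ((a + 1) * s) * h2
    · have hlm' : ¬ l ∣ m / p ^ s := fun h3 => hlm (h3.trans (Nat.div_dvd_of_dvd hd))
      rw [if_neg hlm, add_zero]
      rw [if_neg hlm', add_zero] at h2
      linear_combination (p : ℂ) ^ ((a + 1) * s) * h2
  · have hd1 : ¬ p ^ s ∣ l * m := fun h3 => hd (hco.dvd_of_dvd_mul_left h3)
    rw [if_neg hd1, if_neg hd, mul_zero, zero_add]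
    by_cases hlm : l ∣ m
    · have hd2 : ¬ p ^ s ∣ m / l := fun h3 => hd (h3.trans (Nat.div_dvd_of_dvd hlm))
      rw [if_pos hlm, if_neg hd2, mul_zero]
    · rw [if_neg hlm]

theorem hNX : NX := by
  intro hA1 p a N hN f g hp hb l hl hlp hf m
  have h0 : fcK f 0 = 0 := (hA1 N hN (2 * a + 2) f Complex.I (by simp)).1
  have hbt : ∀ M T : ℕ, M + 1 ≤ T →
      fcK g M = ∑ s ∈ Finset.range T, tm (fcK f) p a s M := by
    intro M T hT
    rw [sum_tm (fcK f) h0 p a M T hp hT, hb M]
    rfl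
  have hm1 : m / l ≤ m := Nat.div_le_self m l
  rw [hbt (l * m) (l * m + m + 1) (by omega), hbt m (l * m + m + 1) (by omega),
    hbt (m / l) (l * m + m + 1) (by omega)]
  have key : ∀ s ∈ Finset.range (l * m + m + 1),
      tm (fcK f) p a s (l * m) +
        (if l ∣ m then (l : ℂ) ^ ((2 * a + 2 : ℤ) - 1) * tm (fcK f) p a s (m / l) else 0) =
      fcK f l * tm (fcK f) p a s m := fun s _ =>
    tm_rel (fcK f) p a s m l (fcK f l) _ hp hl hlp hf
  have hk := Finset.sum_congr rfl key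
  rw [Finset.sum_add_distrib, ← Finset.mul_sum] at hk
  rw [← hk]
  congr 1
  by_cases hlm : l ∣ m
  · simp only [if_pos hlm]
    rw [Finset.mul_sum]
  · simp only [if_neg hlm, Finset.sum_const_zero]

end Pool.Agent.Helper21.LV
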